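import Pool.Agent.Helper41.CS.Ord5
import Pool.Agent.Helper6.CS.Goals2

/-!
# Project OB: definitions and basic lemmas
-/

set_option autoImplicit false

namespace Pool.Agent.Helper6.OB

open Pool.Agent.Helper6.CS
open Pool.Agent.Helper41.CS (Vx OOW limW len_app get_app_lt get_app_ge app_assoc len_nil nil_app
  app_nil len_sg get_sg over_nil over_app over_sg len_sub get_sub sub_app over_sub sub_eq_self
  sub_sg_self bdd_words code_fun len_isub get_isub isub_app isub_over isub_left isub_var)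

set_option synthInstance.maxSize 1000000000

variable {M : Type} [World M]
variable {α β γ δ : Type} [Cod M α] [Cod M β] [Cod M γ] [Cod M δ]

/-! ### Blocks -/

/-- `y = (s, u)` is a block over the alphabet `a`: `s` is over `a`, `u` is over `a + 1` and starts with
the letter `a`. -/
def Bk (a : M) (y : Wd M × Wd M) : Prop := Over a y.1 ∧ Vx a y.2

/-- The length of a block. -/
noncomputable def lb (y : Wd M × Wd M) : M := y.1.len + y.2.len

/-- The word `y(c) = s u(c)`. -/
noncomputable def bl (a c : M) (y : Wd M × Wd M) : Wd M := y.1 ++ Wd.sub a c y.2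

/-- The colouring `χ` is `L`-diagonal on the block `y`. -/
def Dg (a L χ : M) (y : Wd M × Wd M) : Prop :=
  ∀ g : Wd M, Over a g → g.len ≤ L → ∀ c d : M, c < a → d < a →
    apn χ (g ++ bl a c y) = apn χ (g ++ bl a d y)

instance cVx {f : α → M} {g : α → Wd M} [hf : IFn M f] [hg : IFn M g] :
    IP M fun x => Vx (f x) (g x) := by
  have h : IP M fun p : M × Wd M => Vx p.1 p.2 := inferInstance
  exact IP.comp2 (P := fun p : M × Wd M => Vx p.1 p.2) h hf hg

instance cBk {f : α → M} {g : α → Wd M × Wd M} [hf : IFn M f] [hg : IFn M g] :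
    IP M fun x => Bk (f x) (g x) := by
  unfold Bk
  infer_instance

instance cLb {g : α → Wd M × Wd M} [hg : IFn M g] : IFn M fun x => lb (g x) := by
  unfold lb
  infer_instance

instance cBl {f g : α → M} {h : α → Wd M × Wd M} [hf : IFn M f] [hg : IFn M g]
    [hh : IFn M h] : IFn M fun x => bl (f x) (g x) (h x) := by
  unfold bl
  infer_instance

instance cDg {f g h : α → M} {k : α → Wd M × Wd M} [hf : IFn M f] [hg : IFn M g]
    [hh : IFn M h] [hk : IFn M k] : IP M fun x => Dg (f x) (g x) (h x) (k x) := by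
  unfold Dg
  infer_instance

instance cColB {f g h k : α → M} [hf : IFn M f] [hg : IFn M g] [hh : IFn M h] [hk : IFn M k] :
    IP M fun x => ColB (f x) (g x) (h x) (k x) := by
  unfold ColB
  infer_instance

/-! ### States -/

/-- `(H, G)` is a state (`a ≤ b`; `b` is the number of letters of the prefixes `p`). -/
structure St (a b : M) (H : Wd M → M) (G : M → Wd M × Wd M → Prop) : Prop where
  ifn : IFn M H
  ip : IP M fun p : M × (Wd M × Wd M) => G p.1 p.2
  bd : ∃ ρ : M, ∀ p, H p < ρ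
  mono : ∀ L L' y, L ≤ L' → G L' y → G L y
  p2 : ∀ L y, Bk a y → G L y → ∀ p, Over b p → p.len ≤ L → ∀ c, c < a → H (p ++ bl a c y) = H p
  p3 : ∀ L y z, Bk a y → Over a z → G (L + z.len) y →
    (∀ p, Over b p → p.len ≤ L → H (p ++ z) = H p) → G L (z ++ y.1, y.2)
  p4 : ∀ L y z, Bk a y → Over a z → G L y →
    (∀ q, Over b q → q.len ≤ L + lb y → H (q ++ z) = H q) → G L (y.1, y.2 ++ z)
  ur : ∀ L, ∃ β, ∀ h, Over a h → ∃ t, Over a t ∧ t.len ≤ β ∧
    ∀ p, Over b p → p.len ≤ L → H (p ++ t ++ h) = H p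
  many : ∀ L r, ∃ B, ∀ χ, ColB a (L + B) r χ → ∃ y, Bk a y ∧ lb y ≤ B ∧ Dg a L χ y ∧ G L y

/-- `Φ` is a bounded internal function with the properties (Φ1) and (Φ2). -/
structure PhiOK (a b : M) (H : Wd M → M) (Φ : Wd M → Wd M × Wd M → M) : Prop where
  ifn : IFn M fun p : Wd M × (Wd M × Wd M) => Φ p.1 p.2
  bd : ∃ ρ : M, ∀ p y, Φ p y < ρ
  f1 : ∀ p z y, Over b p → Bk a y → Over a z → Φ p (z ++ y.1, y.2) = Φ (p ++ z) y
  f2 : ∀ p y z, Over b p → Bk a y → Over a z →
    (∀ q, Over b q → q.len ≤ p.len + lb y → H (q ++ z) = H q) → Φ p (y.1, y.2 ++ z) = Φ p y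

/-- The type function `(g, H)`. -/
noncomputable def nH (g H : Wd M → M) (p : Wd M) : M := pr (g p) (H p)

/-- The good blocks for `(g, H)`. -/
def nG (a b : M) (G : M → Wd M × Wd M → Prop) (Φ : Wd M → Wd M × Wd M → M) (g : Wd M → M)
    (L : M) (y : Wd M × Wd M) : Prop :=
  G L y ∧ ∀ p, Over b p → p.len ≤ L → Φ p y = g p ∧ ∀ c, c < a → g (p ++ bl a c y) = g p

instance (g H : Wd M → M) [IFn M g] [IFn M H] : IFn M (nH g H) := by
  change IFn M fun p : Wd M => pr (g p) (H p)
  infer_instance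

instance ipnG (a b : M) (G : M → Wd M × Wd M → Prop) (Φ : Wd M → Wd M × Wd M → M) (g : Wd M → M)
    [IP M fun p : M × (Wd M × Wd M) => G p.1 p.2]
    [IFn M fun p : Wd M × (Wd M × Wd M) => Φ p.1 p.2] [IFn M g] :
    IP M fun p : M × (Wd M × Wd M) => nG a b G Φ g p.1 p.2 := by
  unfold nG
  infer_instance

/-! ### Large functions -/

/-- `Λ_L(D)` -/
def Lam (a b : M) (G : M → Wd M × Wd M → Prop) (Φ : Wd M → Wd M × Wd M → M) (L : M)
    (D : Wd M) : Prop :=
  ∀ r, ∃ B, ∀ χ, ColB a (L + B) r χ → ∃ y, Bk a y ∧ lb y ≤ B ∧ Dg a L χ y ∧ G L y ∧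
    ∀ p, Over b p → (Cod.cd p : M) < D.len → Φ p y = D.get (Cod.cd p)

instance ipLam (a b : M) (G : M → Wd M × Wd M → Prop) (Φ : Wd M → Wd M × Wd M → M)
    [IP M fun p : M × (Wd M × Wd M) => G p.1 p.2]
    [IFn M fun p : Wd M × (Wd M × Wd M) => Φ p.1 p.2] :
    IP M fun p : M × Wd M => Lam a b G Φ p.1 p.2 := by
  unfold Lam
  infer_instance

/-- `D` is large. -/
def LamA (a b : M) (G : M → Wd M × Wd M → Prop) (Φ : Wd M → Wd M × Wd M → M) (D : Wd M) : Prop :=
  ∀ L, Lam a b G Φ L D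

instance ipLamA (a b : M) (G : M → Wd M × Wd M → Prop) (Φ : Wd M → Wd M × Wd M → M)
    [IP M fun p : M × (Wd M × Wd M) => G p.1 p.2]
    [IFn M fun p : Wd M × (Wd M × Wd M) => Φ p.1 p.2] : IP M fun D : Wd M => LamA a b G Φ D := by
  unfold LamA
  infer_instance

/-! ### Types -/

/-- A bound for the codes of the words over `b` of length at most `m`. -/
noncomputable def nb (b m : M) : M :=
  lst fun B : M => ∀ w : Wd M, Over b w → w.len ≤ m → (Cod.cd w : M) < B

instance cNb {f g : α → M} [hf : IFn M f] [hg : IFn M g] : IFn M fun x => nb (f x) (g x) := by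
  unfold nb
  infer_instance

theorem nb_spec {b m : M} {w : Wd M} (hw : Over b w) (hl : w.len ≤ m) :
    (Cod.cd w : M) < nb b m :=
  lst_spec (P := fun B : M => ∀ w : Wd M, Over b w → w.len ≤ m → (Cod.cd w : M) < B)
    (bdd_words b m) w hw hl

open Classical in
/-- The restriction of `F` to the words over `b` of length at most `m`, as a word. -/
noncomputable def rst (b m : M) (F : Wd M → M) : Wd M :=
  Wd.of (nb b m) fun i => if Over b (dec i) ∧ (dec i).len ≤ m then F (dec i) else 0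

instance cRst {f g : α → M} {F : α → Wd M → M} [hf : IFn M f] [hg : IFn M g]
    [hF : IFn M fun p : α × Wd M => F p.1 p.2] : IFn M fun x => rst (f x) (g x) (F x) := by
  unfold rst
  infer_instance

theorem get_rst {b m : M} {F : Wd M → M} [IFn M F] {p : Wd M} (hp : Over b p) (hl : p.len ≤ m) :
    (rst b m F).get (Cod.cd p) = F p := by
  classical
  unfold rst
  rw [Wd.get_of_lt _ _ (nb_spec hp hl), dec_cd]
  exact if_pos ⟨hp, hl⟩

theorem len_rst (b m : M) (F : Wd M → M) [IFn M F] : (rst b m F).len = nb b m := by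
  unfold rst
  rw [Wd.len_of]

theorem rst_eq {b m : M} {F F' : Wd M → M} [IFn M F] [IFn M F'] :
    rst b m F = rst b m F' ↔ ∀ p, Over b p → p.len ≤ m → F p = F' p := by
  classical
  constructor
  · intro h p hp hl
    rw [← get_rst (F := F) hp hl, h, get_rst hp hl]
  · intro h
    refine Wd.ext' (by rw [len_rst, len_rst]) fun i hi => ?_
    rw [len_rst] at hi
    unfold rst
    rw [Wd.get_of_lt _ _ hi, Wd.get_of_lt _ _ hi]
    split_ifs with h1
    · exact h _ h1.1 h1.2
    · rfl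

theorem over_rst {b m ρ : M} {F : Wd M → M} [IFn M F] (h0 : 0 < ρ)
    (hρ : ∀ p, Over b p → p.len ≤ m → F p < ρ) : Over ρ (rst b m F) := by
  classical
  intro i hi
  rw [len_rst] at hi
  unfold rst
  rw [Wd.get_of_lt _ _ hi]
  split_ifs with h1
  · exact hρ _ h1.1 h1.2
  · exact h0

/-- The code of a type with values `< ρ` is `< nb ρ (nb b m)`. -/
theorem cd_rst_lt {b m ρ : M} {F : Wd M → M} [IFn M F] (h0 : 0 < ρ)
    (hρ : ∀ p, Over b p → p.len ≤ m → F p < ρ) : (Cod.cd (rst b m F) : M) < nb ρ (nb b m) :=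
  nb_spec (over_rst h0 hρ) (by rw [len_rst])

/-- The length of a word is at most its code. -/
theorem len_le_cd (w : Wd M) : w.len ≤ (Cod.cd w : M) := by
  obtain ⟨m, h, -⟩ := w.cd_eq_pr
  rw [h]
  unfold pr
  exact le_add_of_nonneg_left (World.zero_le' _)

/-- The pair (level, type) number `i` occurs in `D`. -/
def Vio (a b : M) (H : Wd M → M) (i : M) (D : Wd M) : Prop :=
  ∃ (q : Wd M) (m : M) (E : Wd M), Over a q ∧ i = pr m (Cod.cd E) ∧
    (∀ p, Over b p → p.len ≤ m → (Cod.cd (p ++ q) : M) < D.len) ∧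
    rst b m (fun p => pr (D.get (Cod.cd (p ++ q))) (H (p ++ q))) = E

instance ipVio (a b : M) (H : Wd M → M) [IFn M H] : IP M fun p : M × Wd M => Vio a b H p.1 p.2 := by
  unfold Vio
  infer_instance

/-! ### Lemmas on blocks and words -/

theorem len_bl (a c : M) (y : Wd M × Wd M) : (bl a c y).len = lb y := by
  unfold bl lb
  rw [len_app, len_sub]

theorem over_bl {a b c : M} {y : Wd M × Wd M} (hy : Bk a y) (hab : a ≤ b) (hc : c < b) :
    Over b (bl a c y) := by
  refine over_app (Over.mono hab hy.1) ?_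
  intro i hi
  rw [len_sub] at hi
  rw [get_sub hi]
  split_ifs with h
  · exact hc
  · exact lt_of_lt_of_le (lt_of_le_of_ne ((World.lt_succ _ _).1 (hy.2.1 i hi)) h) hab

theorem over_bl' {a c : M} {y : Wd M × Wd M} (hy : Bk a y) (hc : c < a) : Over a (bl a c y) :=
  over_bl hy le_rfl hc

/-- `(z s, u)(c) = z s u(c)` -/
theorem bl_left (a c : M) (z : Wd M) (y : Wd M × Wd M) :
    bl a c (z ++ y.1, y.2) = z ++ bl a c y := by
  unfold bl
  rw [app_assoc]

/-- `(s, u z)(c) = s u(c) z` -/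
theorem bl_right {a c : M} {z : Wd M} (hz : Over a z) (y : Wd M × Wd M) :
    bl a c (y.1, y.2 ++ z) = bl a c y ++ z := by
  unfold bl
  simp only
  rw [sub_app, sub_eq_self hz, app_assoc]

theorem bk_left {a : M} {z : Wd M} {y : Wd M × Wd M} (hy : Bk a y) (hz : Over a z) :
    Bk a (z ++ y.1, y.2) := ⟨over_app hz hy.1, hy.2⟩

theorem vx_right {a : M} {u z : Wd M} (hu : Vx a u) (hz : Over a z) : Vx a (u ++ z) := by
  refine ⟨over_app hu.1 (Over.mono (le_add_of_nonneg_right zero_le_one) hz), ?_, ?_⟩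
  · rw [len_app]
    exact hu.2.1.trans (le_add_of_nonneg_right (World.zero_le' _))
  · rw [get_app_lt (lt_of_lt_of_le zero_lt_one hu.2.1)]
    exact hu.2.2

theorem bk_right {a : M} {z : Wd M} {y : Wd M × Wd M} (hy : Bk a y) (hz : Over a z) :
    Bk a (y.1, y.2 ++ z) := ⟨hy.1, vx_right hy.2 hz⟩

theorem lb_left (z : Wd M) (y : Wd M × Wd M) : lb (z ++ y.1, y.2) = z.len + lb y := by
  unfold lb
  rw [len_app, add_assoc]

theorem lb_right (z : Wd M) (y : Wd M × Wd M) : lb (y.1, y.2 ++ z) = lb y + z.len := by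
  unfold lb
  simp only
  rw [len_app, add_assoc]

theorem colB_mono {L N N' r r' e : M} (hN : N ≤ N') (hr : r' ≤ r) (h : ColB L N' r' e) :
    ColB L N r e := fun z hz hl => lt_of_lt_of_le (h z hz (hl.trans hN)) hr

theorem dg_mono {a L L' χ : M} {y : Wd M × Wd M} (hL : L ≤ L') (h : Dg a L' χ y) : Dg a L χ y :=
  fun g hg hl => h g hg (hl.trans hL)

/-- Coding of a number valued function on the words over `a` of length at most `N`. -/
theorem code_num (F : Wd M → M) [IFn M F] (a N : M) :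
    ∃ h : M, ∀ w : Wd M, Over a w → w.len ≤ N → apn h w = F w := by
  obtain ⟨B, hB⟩ := bdd_words a N
  obtain ⟨h, hh⟩ := ev_exists (fun j : M => F (dec j)) B
  refine ⟨h, fun w hw hl => ?_⟩
  unfold apn
  rw [hh _ (hB w hw hl), dec_cd]

/-- An initial segment of `Wd.of N g`. -/
theorem of_append (g : M → M) [IFn M g] {N N' : M} (h : N ≤ N') :
    ∃ z : Wd M, Wd.of N' g = Wd.of N g ++ z := by
  obtain ⟨k, rfl⟩ := World.exists_add _ _ h
  refine ⟨Wd.of k fun i => g (N + i), ?_⟩
  refine Wd.ext' (by rw [len_app, Wd.len_of, Wd.len_of, Wd.len_of]) fun i hi => ?_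
  rw [Wd.len_of] at hi
  rw [Wd.get_of_lt _ _ hi]
  rcases lt_or_ge i N with h1 | h1
  · rw [get_app_lt (by rwa [Wd.len_of]), Wd.get_of_lt _ _ h1]
  · obtain ⟨j, rfl⟩ := World.exists_add _ _ h1
    have h2 := get_app_ge (Wd.of N g) (Wd.of k fun i => g (N + i)) j
    rw [Wd.len_of] at h2
    rw [h2, Wd.get_of_lt _ _ (lt_of_add_lt_add_left hi)]

/-! ### Sequences of blocks -/

/-- `F` is given by the sequence of the blocks `(S j, U j)`, which are good. -/
structure BSeq (a : M) (G : M → Wd M × Wd M → Prop) (F S U : M → Wd M) : Prop where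
  iF : IFn M F
  iS : IFn M S
  iU : IFn M U
  f0 : F 0 = Wd.nil M
  fs : ∀ j, F (j + 1) = F j ++ S j ++ Wd.sub a (a + j) (U j)
  bk : ∀ j, Bk a (S j, U j)
  gd : ∀ j, G (F j).len (S j, U j)

/-- `w_v` -/
noncomputable def wv (a : M) (F : M → Wd M) (v : Wd M) : Wd M := isub a (F v.len) v

instance ifnWv (a : M) (F : M → Wd M) [IFn M F] : IFn M fun v : Wd M => wv a F v := by
  unfold wv
  infer_instance

/-- `c` and `c'` have the same sequence of variables (letters `≥ a`), of length `i`; all letters are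
`< b`. -/
def Pat (a b : M) : ℕ → Wd M → Wd M → Prop
  | 0, c, c' => Over a c ∧ Over a c'
  | i + 1, c, c' => ∃ (z z' : Wd M) (e : M) (c₁ c₁' : Wd M), c = z ++ Wd.sg e ++ c₁ ∧
      c' = z' ++ Wd.sg e ++ c₁' ∧ Over a z ∧ Over a z' ∧ a ≤ e ∧ e < b ∧ Pat a b i c₁ c₁'

/-- For words built from good blocks the colour is determined by the sequence of at most `k`
variables and the value of `H`. -/
def Det (a b : M) (f : Wd M → M) (k : ℕ) (H : Wd M → M) (G : M → Wd M × Wd M → Prop) : Prop :=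
  ∀ F S U : M → Wd M, BSeq a G F S U → ∀ v v' : Wd M, Over b v → Over b v' →
    H (wv a F v) = H (wv a F v') → ∀ i : ℕ, i ≤ k → ∀ c c' : Wd M, Pat a b i c c' →
      f (wv a F (v ++ c) ++ S (v ++ c).len) = f (wv a F (v' ++ c') ++ S (v' ++ c').len)

end Pool.Agent.Helper6.OB
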