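import Pool.Agent.Helper6.OB.Defs

/-!
# Project OB: goals

The paper proof is in `Paper.lean`, the definitions are in `Defs.lean`. `b` is `a + n` of the paper, a
prefix is a word over `b`.
-/

set_option autoImplicit false

namespace Pool.Agent.Helper6.OB

open Pool.Agent.Helper6.CS
open Pool.Agent.Helper41.CS (Vx OOW limW)

set_option synthInstance.maxSize 1000000000

/-- **KON** (König's lemma for an internal set of words over a bounded alphabet), from `G_REC`.

PROOF. `Inf D` := for all `N` there is `z` over `ρ` with `z.len = N` and `T (D ++ z)`. `Inf nil` by the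
third hypothesis. If `Inf D` then there is `e < ρ` with `Inf (D ++ Wd.sg e)`: otherwise for every
`e < ρ` there is `N` such that no `z` over `ρ` with `z.len = N` has `T (D ++ Wd.sg e ++ z)`; by `coll`
there is a bound `B` of these `N`; take `z` for `D` and `N := B + 1`, `z = Wd.sg e ++ z'`, `z'.len = B`
(`Wd.exists_cons`); cut `z'` to the length `N_e ≤ B` (second hypothesis): contradiction. Apply `G_REC`
with `x₀ = nil`, `st (n, w) = w ++ Wd.sg (lst fun e => e < ρ ∧ Inf (w ++ Wd.sg e))`. By `ind`: `(F j).len = j`,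
`Inf (F j)`. Let `g j = (F (j + 1)).get j` (an element `e < ρ`, `lst_spec`). By `ind`:
`Wd.of N g = F N` (`Wd.of (N+1) g = Wd.of N g ++ Wd.sg (g N)`). `T (Wd.of N g)`: `Inf (F N)` with `N := 0`. -/
def G_KON : Prop := G_REC → ∀ (M : Type) [World M] (ρ : M) (T : Wd M → Prop), IP M T →
  (∀ D z, T (D ++ z) → T D) → (∀ N, ∃ D, D.len = N ∧ Over ρ D ∧ T D) →
  ∃ g : M → M, IFn M g ∧ (∀ i, g i < ρ) ∧ ∀ N, T (Wd.of N g)

/-- **GRE** (greedy sequences), from `G_REC`.

PROOF. `G_REC` with `x₀ = nil`, `st (n, w) = w ++ Wd.sg (if P (w ++ Wd.sg 1) then 1 else 0)`. By `ind`: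
`(F j).len = j` and `P (F j)`. `S j = (F (j + 1)).get j` is `1` if `P (F j ++ Wd.sg 1)` and `0` otherwise, and
`Wd.of j S = F j` (by `ind`). -/
def G_GRE : Prop := G_REC → ∀ (M : Type) [World M] (P : Wd M → Prop), IP M P → P (Wd.nil M) →
  (∀ w, P w → P (w ++ Wd.sg 0)) → ∃ S : M → M, IFn M S ∧ (∀ j, P (Wd.of j S)) ∧
    ∀ j, S j ≠ 1 → ¬ P (Wd.of j S ++ Wd.sg 1)

/-- **LMO** (monotonicity of `Λ`).

PROOF. (1) Given `r` take `B'` from `Lam .. L' D` for `r` and `B = (L' - L) + B'`, so `L + B = L' + B'`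
(`World.exists_add`). Use `St.mono`, `dg_mono`. (2) `(D ++ z).get i = D.get i` for `i < D.len`
(`get_app_lt`), `D.len ≤ (D ++ z).len`. (3) The same for `Vio`: with the same `q, m, E`; the functions
under `rst` agree on all `p` over `b` with `p.len ≤ m` (`rst_eq`). -/
def G_LMO : Prop := ∀ (M : Type) [World M] (a b : M) (H : Wd M → M) (G : M → Wd M × Wd M → Prop)
  (Φ : Wd M → Wd M × Wd M → M), St a b H G →
  (∀ L L' D, L ≤ L' → Lam a b G Φ L' D → Lam a b G Φ L D) ∧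
  (∀ L D z, Lam a b G Φ L (D ++ z) → Lam a b G Φ L D) ∧
  (∀ D z, LamA a b G Φ (D ++ z) → LamA a b G Φ D) ∧
  ∀ i D z, Vio a b H i D → Vio a b H i (D ++ z)

/-- **LST** (one level is enough for finitely many `D`), from `G_LMO`.

PROOF. The relation `R i m` := if `Over ρ (dec i)`, `(dec i).len = N` and `¬ LamA .. (dec i)` then
`¬ Lam .. m (dec i)` is total. By `coll` on the initial segment `K = nb ρ N` (`nb_spec`: all words over
`ρ` of length `N` have codes `< nb ρ N`) there is a bound `B` of the `m`. Let `L = B`: if `Lam .. B D` and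
not `LamA .. D`, take `m < B` with `¬ Lam .. m D` for `i = cd D` (`dec_cd`): contradiction by `G_LMO`. -/
def G_LST : Prop := G_LMO → ∀ (M : Type) [World M] (a b ρ N : M) (H : Wd M → M)
  (G : M → Wd M × Wd M → Prop) (Φ : Wd M → Wd M × Wd M → M), St a b H G →
  (IFn M fun p : Wd M × (Wd M × Wd M) => Φ p.1 p.2) →
  ∃ L : M, ∀ D, Over ρ D → D.len = N → Lam a b G Φ L D → LamA a b G Φ D

/-- **PR** (there are large functions of every length), from `G_LST`.

PROOF. Let `L` be from `G_LST` for `ρ`, `N` and suppose that no `D` over `ρ` of length `N` has `Lam .. L D`.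
So for every such `D` there is `r` such that for all `B` there is `χ` with `ColB a (L + B) r χ` and no
block `y` as in the definition of `Lam`. Let `K = nb ρ N`; by `coll` (for `i = cd D < K`) there is a common
bound `R ≥ 1` of the `r` (`colB_mono`: `ColB .. r χ → ColB .. R χ`). Let `B` be from `St.many` for `L` and
`r' = nb R K`. Let `X i` (`i < K`) be `pick M` (or `lst`) of a `χ` as above for `D = dec i` (for this `B`) if
`dec i` is over `ρ` of length `N`, and `X i` the code of the zero function otherwise (`code_num`), so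
`ColB a (L + B) R (X i)`. Let `χ'` code the function `z ↦ cd (Wd.of K fun i => apn (X i) z)` on the words
over `a` of length `≤ L + B` (`code_num`): `ColB a (L + B) (nb R K) χ'` by `nb_spec`. Take `y` from
`St.many` for `χ'`, and `D = Wd.of N fun i => Φ (dec i) y`, which is over `ρ`, of length `N`. As `cd` is
injective (`Cod.inj`, `Wd.get_of_lt`), `Dg a L (X i) y` for all `i < K` (for this note
`(g ++ bl a c y).len ≤ L + B`, `len_bl`). `Φ p y = D.get (cd p)` for `cd p < N` (`dec_cd`). This contradicts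
the choice of `X (cd D)`. -/
def G_PR : Prop := G_LMO → G_LST → ∀ (M : Type) [World M] (a b ρ : M) (H : Wd M → M)
  (G : M → Wd M × Wd M → Prop) (Φ : Wd M → Wd M × Wd M → M), St a b H G → PhiOK a b H Φ →
  (∀ p y, Φ p y < ρ) → ∀ N, ∃ D, D.len = N ∧ Over ρ D ∧ LamA a b G Φ D

/-- The properties of the limit function `g₀` (of the numbers of the prefixes) and of the set
`S` of the avoided types (`S i = 1`). -/
structure Pth {M : Type} [World M] (a b ρ : M) (H : Wd M → M) (G : M → Wd M × Wd M → Prop)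
    (Φ : Wd M → Wd M × Wd M → M) (g₀ S : M → M) : Prop where
  ig : IFn M g₀
  iS : IFn M S
  bd : ∀ i, g₀ i < ρ
  g1 : ∀ N, LamA a b G Φ (Wd.of N g₀)
  g2 : ∀ i N, S i = 1 → ¬ Vio a b H i (Wd.of N g₀)
  g3 : ∀ j, S j ≠ 1 → ∃ N, ∀ D, D.len = N → Over ρ D → LamA a b G Φ D →
    (∀ i, i < j → S i = 1 → ¬ Vio a b H i D) → Vio a b H j D

/-- **PTH** (the limit function and the set of avoided types), from `G_KON`, `G_GRE`, `G_PR`, `G_LMO`.

PROOF. `NE w` := for all `N` there is `D` with `D.len = N`, `Over ρ D`, `LamA .. D` and for all `i < w.len`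
with `w.get i = 1`: `¬ Vio a b H i D`. `NE nil` by `G_PR`; `NE w → NE (w ++ Wd.sg 0)` (the new entry is
`0 ≠ 1`). `G_GRE` for `NE` gives `S`. `G_KON` for `T D` := `LamA .. D` and for all `i < D.len` with `S i = 1`:
`¬ Vio a b H i D`. (`T (D ++ z) → T D` by `G_LMO`; `NE (Wd.of N S)` gives `D` of length `N` with `T D`.)
`g₀` from `G_KON`. `g2`: let `N' = N + (i + 1)`; `T (Wd.of N' g₀)` and `Vio i (Wd.of N g₀)` would give
`Vio i (Wd.of N' g₀)` (`of_append`, `G_LMO`). `g3`: `¬ NE (Wd.of j S ++ Wd.sg 1)` gives `N`; if `D` is given and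
no `i < j` with `S i = 1` occurs in `D`, then the negation says that `j` occurs in `D`. -/
def G_PTH : Prop := G_REC → G_KON → G_GRE → G_LMO → G_LST → G_PR → ∀ (M : Type) [World M]
  (a b ρ : M) (H : Wd M → M) (G : M → Wd M × Wd M → Prop) (Φ : Wd M → Wd M × Wd M → M),
  St a b H G → PhiOK a b H Φ → (∀ p y, Φ p y < ρ) → ∃ g₀ S : M → M, Pth a b ρ H G Φ g₀ S

/-- The function `g` on prefixes given by `g₀`. -/
noncomputable def gp {M : Type} [World M] (g₀ : M → M) (p : Wd M) : M := g₀ (Cod.cd p)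

instance {M : Type} [World M] (g₀ : M → M) [IFn M g₀] : IFn M (gp g₀) := by
  change IFn M fun p : Wd M => g₀ (Cod.cd p)
  infer_instance

/-- **URL** (shifts of the limit function are large).

PROOF. Let `w = ζ ++ h` (over `a`), `N' = nb b (m + w.len)` where `m` bounds the lengths: every word `p`
over `b` with `cd p < N` has `p.len < N` (`len_le_cd`), so `cd (p ++ w) < nb b (N + w.len) = N'`
(`nb_spec`). Given `r`, let `B` be from `g1` (`Lam .. (L + w.len) (Wd.of N' g₀)`) for `r`; the new bound is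
`w.len + B`. Let `χ` be given with `ColB a (L + (w.len + B)) r χ`. Take `y` for `χ` and the level
`L + w.len`. The block `(w ++ y.1, y.2)` is as required: `bk_left`, `lb_left`; `Dg`: `bl_left`,
`g ++ (w ++ bl a c y) = (g ++ w) ++ bl a c y`; `G L` by `St.p3`; `Φ p (w ++ y.1, y.2) = Φ (p ++ w) y` (`PhiOK.f1`)
`= (Wd.of N' g₀).get (cd (p ++ w)) = g₀ (cd (p ++ w))`, and the entry `cd p` of the word on the right is
`g₀ (cd (dec (cd p) ++ w))`, the same by `dec_cd`. -/
def G_URL : Prop := ∀ (M : Type) [World M] (a b ρ : M) (H : Wd M → M)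
  (G : M → Wd M × Wd M → Prop) (Φ : Wd M → Wd M × Wd M → M) (g₀ S : M → M), a ≤ b →
  St a b H G → PhiOK a b H Φ → Pth a b ρ H G Φ g₀ S → ∀ (L N : M) (w : Wd M), Over a w →
    (∀ p, Over b p → p.len ≤ L → H (p ++ w) = H p) →
    Lam a b G Φ L (Wd.of N fun i => g₀ (Cod.cd (dec i ++ w)))

/-- **URP** ((UR) for `(g, H)`), from `G_URL`, `G_LST`.

PROOF. Let `ℓ` be the given level, `H' = nH (gp g₀) H`, `E = rst b ℓ H'`, `j = pr ℓ (cd E)`. For
`N₀ = nb b ℓ`: `Vio a b H j (Wd.of N₀ g₀)` with `q = nil` (`app_nil`, `nb_spec`, `rst_eq`). So `S j ≠ 1` by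
`g2`; take `N` from `g3` and `L*` from `G_LST` for `ρ, N`. `L₁ = L* + N`, `β'` from `St.ur` for `L₁`;
`β = N + β'`. Let `h` over `a` be given, `ζ` with `ζ.len ≤ β'`, `H (p ++ ζ ++ h) = H p` for `p.len ≤ L₁`. Let
`w = ζ ++ h`, `D = Wd.of N fun i => g₀ (cd (dec i ++ w))` (internal by `inferInstance`), over `ρ`.
`Lam .. L* D` by `G_URL`, so `LamA .. D`. Suppose `Vio i D`, `S i = 1`: `q, m, E'` with
`cd (p ++ q) < N` for `p.len ≤ m`, so `(p ++ q).len < N` (`len_le_cd`) and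
`D.get (cd (p ++ q)) = g₀ (cd (p ++ (q ++ w)))`, `H (p ++ q) = H (p ++ (q ++ w))`; for
`N'' = nb b (m + (q ++ w).len)` this gives `Vio i (Wd.of N'' g₀)` with `q ++ w, m, E'` (`rst_eq`), a
contradiction to `g2`. So by `g3` `Vio j D`: `q, m, E'` with `j = pr m (cd E')`, so `m = ℓ`, `E' = E`
(`pr_inj`, `Cod.cd_eq`), and for all `p` over `b`, `p.len ≤ ℓ`:
`pr (g₀ (cd (p ++ q ++ w))) (H (p ++ q)) = H' p` (`rst_eq`) and `H (p ++ q) = H (p ++ q ++ w)`, that is
`H' (p ++ (q ++ ζ) ++ h) = H' p`. Take `t = q ++ ζ`; `q.len ≤ cd (nil ++ q) < N`. -/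
def G_URP : Prop := G_LMO → G_LST → G_URL → ∀ (M : Type) [World M] (a b ρ : M) (H : Wd M → M)
  (G : M → Wd M × Wd M → Prop) (Φ : Wd M → Wd M × Wd M → M) (g₀ S : M → M), a ≤ b →
  St a b H G → PhiOK a b H Φ → Pth a b ρ H G Φ g₀ S → ∀ L, ∃ β, ∀ h, Over a h →
    ∃ t, Over a t ∧ t.len ≤ β ∧ ∀ p, Over b p → p.len ≤ L →
      nH (gp g₀) H (p ++ t ++ h) = nH (gp g₀) H p

/-- All initial segments of `g` are large, in a convenient form. -/
def Gn {M : Type} [World M] (a b : M) (G : M → Wd M × Wd M → Prop)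
    (Φ : Wd M → Wd M × Wd M → M) (g : Wd M → M) : Prop :=
  ∀ L r, ∃ B, ∀ χ, ColB a (L + B) r χ → ∃ y, Bk a y ∧ lb y ≤ B ∧ Dg a L χ y ∧ G L y ∧
    ∀ p, Over b p → p.len ≤ L → Φ p y = g p

/-- `t ∈ Ret(h)` -/
def Ret {M : Type} [World M] (a b L β : M) (H' : Wd M → M) (h t : Wd M) : Prop :=
  Over a t ∧ t.len ≤ β ∧ ∀ p, Over b p → p.len ≤ L → H' (p ++ t ++ h) = H' p

/-- Success for the colouring `χ` and the bound `B`. -/
def Suc {M : Type} [World M] (a b : M) (G : M → Wd M × Wd M → Prop)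
    (Φ : Wd M → Wd M × Wd M → M) (g : Wd M → M) (L χ B : M) : Prop :=
  ∃ y, Bk a y ∧ lb y ≤ B ∧ Dg a L χ y ∧ nG a b G Φ g L y

/-- The statement `R(m)` of the paper; the words `h_i` are `dec (ev e i)`. -/
def RR {M : Type} [World M] (a b : M) (H : Wd M → M) (G : M → Wd M × Wd M → Prop)
    (Φ : Wd M → Wd M × Wd M → M) (g : Wd M → M) (L r β m : M) : Prop :=
  ∀ l, ∃ B, ∀ χ, ColB a (L + β + l + B) r χ → Suc a b G Φ g L χ (β + l + B) ∨
    ∃ e : M, (∀ i, i ≤ m → Over a (dec (ev e i)) ∧ (dec (ev e i)).len ≤ B ∧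
      ∀ q, Over b q → q.len ≤ L + β + l → H (q ++ dec (ev e i)) = H q) ∧
    ∀ i j, i < j → j ≤ m → ∀ x, Over a x → x.len ≤ l → ∀ t,
      ¬ (Ret a b L β (nH g H) (x ++ dec (ev e i)) t ∧ Ret a b L β (nH g H) (x ++ dec (ev e j)) t)

/-- **MN0**. PROOF. `B = 0`, `e` codes the function with the value `cd nil` (`ev_exists`), `dec_cd`,
`app_nil`, `over_nil`, `len_nil`; the last part is empty (`j ≤ 0`). -/
def G_MN0 : Prop := ∀ (M : Type) [World M] (a b : M) (H : Wd M → M)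
  (G : M → Wd M × Wd M → Prop) (Φ : Wd M → Wd M × Wd M → M) (g : Wd M → M), IFn M H → IFn M g →
  ∀ L r β, RR a b H G Φ g L r β 0

/-- **MNX** (the block `(t x s, u h)` is a success).

PROOF. Let `L₀ = L + β + l`. `w = t ++ x`, `w.len ≤ β + l`, `y' = ((w ++ y.1), y.2 ++ h)`.
`bk_left`, `bk_right`; `lb_left`, `lb_right`: `lb y' = w.len + lb y + h.len ≤ β + l + (B₀ + B₁)`. `bl`:
`bl a c y' = w ++ bl a c y ++ h` (`bl_left`, `bl_right`). `Dg`: for `x'.len ≤ L`:
`x' ++ bl a c y' = (x' ++ w) ++ bl a c y ++ h` and `(x' ++ w).len ≤ L₀`; hypothesis `hχ`. `G L y'`: `H (p ++ w) = H p`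
for `p.len ≤ L`: from `t ∈ Ret(x)`: `nH g H (p ++ t ++ x) = nH g H p` and `pr_inj`; `G (L + w.len) y` by
`St.mono`, `St.p3`, then `St.p4` with `h`: for `q.len ≤ L + lb (w ++ y.1, y.2)` (`≤ L + β + l + B₀`) the
hypothesis `hh`. For `p` over `b`, `p.len ≤ L`: `Φ p y' = Φ p (w ++ y.1, y.2)` (`PhiOK.f2`, `hh`)
`= Φ (p ++ w) y` (`f1`) `= g (p ++ w)` (`hg`) `= g p` (`pr_inj`). `g (p ++ bl a c y')`:
`= g (p ++ w ++ bl a c y ++ h)`, by `hd` (types) `= g (p ++ w ++ bl a 0 y ++ h)`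
`= g (p ++ t ++ (x ++ bl a 0 y ++ h)) = g p`, as `t ∈ Ret (x ++ bl a 0 y ++ h)`. -/
def G_MNX : Prop := ∀ (M : Type) [World M] (a b : M) (H : Wd M → M)
  (G : M → Wd M × Wd M → Prop) (Φ : Wd M → Wd M × Wd M → M) (g : Wd M → M), 0 < a → a ≤ b →
  St a b H G → PhiOK a b H Φ → IFn M g → ∀ (L β l B₀ B₁ χ : M) (y : Wd M × Wd M) (h x t : Wd M),
  Bk a y → lb y ≤ B₀ → Over a h → h.len ≤ B₁ → Over a x → x.len ≤ l → G (L + β + l) y →
  -- `hg`
  (∀ p, Over b p → p.len ≤ L + β + l → Φ p y = g p) →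
  -- `hh`
  (∀ q, Over b q → q.len ≤ L + β + l + B₀ → H (q ++ h) = H q) →
  -- `hχ`
  (∀ q, Over a q → q.len ≤ L + β + l → ∀ c d, c < a → d < a →
    apn χ (q ++ bl a c y ++ h) = apn χ (q ++ bl a d y ++ h)) →
  -- `hd`
  (∀ q, Over a q → q.len ≤ L + β + l → ∀ c d, c < a → d < a → ∀ p, Over b p → p.len ≤ L →
    nH g H (p ++ (q ++ bl a c y ++ h)) = nH g H (p ++ (q ++ bl a d y ++ h))) →
  Ret a b L β (nH g H) x t → Ret a b L β (nH g H) (x ++ bl a 0 y ++ h) t →
  Suc a b G Φ g L χ (β + l + (B₀ + B₁))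

/-- **MNS** (from `R(m)` to `R(m + 1)`), from `G_MNX`.

PROOF. Let `l` be given, `L₀ = L + β + l`. Let `ρ'` bound `nH g H` (`pr_lt` and the bounds of `g` and `H`;
`nH g H p < pr ρ ρ₂`), `K = nb ρ' (nb b L)` (a bound of the codes of types of level `L`, `cd_rst_lt`),
`r₀ = nb (pr K r) (m + 1)`, `B₀` from `Gn` for `L₀`, `r₀`, and `B₁` from `RR .. m` for `l + B₀`;
`B = B₀ + B₁`. Let `χ` be given with `ColB a (L + β + l + (B₀ + B₁)) r χ`; rewrite the bound as
`L + β + (l + B₀) + B₁`. In the case `Suc` we are done (`β + (l + B₀) + B₁ = β + l + (B₀ + B₁)`).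
Otherwise let `e` be given, `h_i = dec (ev e i)`. Let `F q = cd (Wd.of (m + 1) fun i =>
pr (cd (rst b L fun p => nH g H (p ++ (q ++ h_i)))) (apn χ (q ++ h_i)))`, and let `χ₀` code `F` on the words
over `a` of length `≤ L₀ + B₀` (`code_num`). `ColB a (L₀ + B₀) r₀ χ₀`: `cd_rst_lt`, `apn χ (q ++ h_i) < r` as
`(q ++ h_i).len ≤ L₀ + B₀ + B₁`, `pr_lt`, `nb_spec`. Take `y` from `Gn` for `χ₀`. As `cd` is injective,
for `q` over `a`, `q.len ≤ L₀`, `c, d < a` and `i ≤ m`: the types at `q ++ bl a c y ++ h_i` and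
`q ++ bl a d y ++ h_i` are equal (`rst_eq`), and the colours too. The new sequence: `e'` codes the
function `i ↦ if i = 0 then cd nil else cd (bl a 0 y ++ h_(i-1))` on `i < m + 2` (`ev_exists`,
`dec_cd`). Lengths: `≤ B₀ + B₁`. `H (q ++ bl a 0 y ++ h_i) = H (q ++ bl a 0 y)` (as
`(q ++ bl a 0 y).len ≤ L + β + (l + B₀)`) `= H q` (`St.p2`, `G L₀ y`). If for some `i < j ≤ m + 1`, `x`, `t`
is in both sets: if `i > 0` then this contradicts the property of `e` for `i - 1, j - 1` and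
`x ++ bl a 0 y` (length `≤ l + B₀`); if `i = 0` then `Suc` by `G_MNX` with `h = h_(j-1)`. (So argue: by
cases whether `Suc` holds.) -/
def G_MNS : Prop := G_MNX → ∀ (M : Type) [World M] (a b ρ : M) (H : Wd M → M)
  (G : M → Wd M × Wd M → Prop) (Φ : Wd M → Wd M × Wd M → M) (g : Wd M → M), 0 < a → a ≤ b →
  St a b H G → PhiOK a b H Φ → IFn M g → (∀ p, g p < ρ) → Gn a b G Φ g → ∀ L r β m,
    RR a b H G Φ g L r β m → RR a b H G Φ g L r β (m + 1)

/-- **MNE** ((MANY) for the new state), from `G_MN0`, `G_MNS`, `G_PH`.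

PROOF. Given `L, r` let `β` be from `hur` for `L`. `RR .. m` for all `m` by `ind` (internal: unfold `RR`,
`Suc`, `Ret`; `haveI` the instances). Let `m = nb a β`, `B` from `RR .. m` for `l = 0`; the bound is
`β + B`. Given `χ`: `Suc` is what we want (`β + 0 + B = β + B`). Otherwise let `e` be given and for
`i ≤ m` let `t i = pick M (fun t => Ret a b L β (nH g H) (dec (ev e i)) t)`; it is in `Ret` by `hur` and
`pick_spec`; `cd (t i) < nb a β = m`. By `G_PH` for `i ↦ if i ≤ m then cd (t i) else 0` there are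
`i < j ≤ m` with `t i = t j`; contradiction with `x = nil` (`nil_app`). -/
def G_MNE : Prop := G_PH → G_MN0 → G_MNX → G_MNS → ∀ (M : Type) [World M] (a b ρ : M)
  (H : Wd M → M) (G : M → Wd M × Wd M → Prop) (Φ : Wd M → Wd M × Wd M → M) (g : Wd M → M),
  0 < a → a ≤ b → St a b H G → PhiOK a b H Φ → IFn M g → (∀ p, g p < ρ) → Gn a b G Φ g →
  -- `hur`
  (∀ L, ∃ β, ∀ h, Over a h → ∃ t, Ret a b L β (nH g H) h t) →
  ∀ L r, ∃ B, ∀ χ, ColB a (L + B) r χ →
    ∃ y, Bk a y ∧ lb y ≤ B ∧ Dg a L χ y ∧ nG a b G Φ g L y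

/-- **STP** (the step), from `G_PTH`, `G_URP`, `G_MNE`.

PROOF. Let `g₀, S` be from `G_PTH`, `g = gp g₀`. `Gn a b G Φ g`: for `L, r` use `g1` with `N = nb b L` (for
`p.len ≤ L`: `cd p < N`, and `(Wd.of N g₀).get (cd p) = g₀ (cd p)`). Then `ur` is `G_URP`, `many` is
`G_MNE`, `ifn`, `ip` by `inferInstance` (`ipnG`), `bd`: `pr (g p) (H p) < pr ρ ρ₂` (`pr_lt`). `mono`: clear.
`p2`: `nH g H (p ++ bl a c y) = pr (g (p ++ bl a c y)) (H (p ++ bl a c y))`, both unchanged. `p3`, `p4`: see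
`Paper.lean` (`bl_left`, `bl_right`, `lb_left`, `len_bl`, `pr_inj`; in `p3` `G L ..` by `St.p3`, and
`(p ++ z).len ≤ L + z.len`; in `p4` `q = p ++ bl a c y` has length `≤ L + lb y`). -/
def G_STP : Prop := G_REC → G_PH → G_KON → G_GRE → G_LMO → G_LST → G_PR → G_PTH → G_URL → G_URP →
  G_MN0 → G_MNX → G_MNS → G_MNE → ∀ (M : Type) [World M] (a b : M) (H : Wd M → M)
  (G : M → Wd M × Wd M → Prop) (Φ : Wd M → Wd M × Wd M → M), 0 < a → a ≤ b → St a b H G →
  PhiOK a b H Φ → ∃ g : Wd M → M, IFn M g ∧ St a b (nH g H) (nG a b G Φ g)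

/-- **BAS** (the base), from `G_CS1`.

PROOF. Only `many` is not trivial (`ur`: `β = 0`, `t = nil`). Given `L, r` let `B` be from `G_CS1` for `a` and
`r' = nb r (nb a L)`. Let `χ` be given, `ColB a (L + B) r χ`; apply `G_CS1` to
`c z = cd (rst a L fun g => apn χ (g ++ z))` (internal by `inferInstance`); for `z` over `a`,
`z.len ≤ B`: `c z < r'` by `cd_rst_lt` (`0 < r`, since `nil` has a colour). Get `σ, τ`; the block is
`(σ, Wd.sg a ++ τ)`: `sub a c (sg a ++ τ) = sg c ++ sub a c τ` (`sub_app`, `sub_sg_self`), its length is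
`σ.len + (1 + τ.len)`. `Cod.inj` and `rst_eq` give `Dg`. -/
def G_BAS : Prop := G_CS1 → ∀ (M : Type) [World M] (a b : M),
  St a b (fun _ => 0) fun _ _ => True

/-- **PHS** (the functions `Φ_0` and `Φ_(i+1)`).

PROOF. (1) `f ((p ++ (z ++ y.1))) = f ((p ++ z) ++ y.1)` (`app_assoc`). (2) Bound: `cd` of a word over
`ρ` of length `b`, `nb ρ b`. `f1`: `bl_left`, `app_assoc`. `f2`: `bl_right` and the hypothesis
with `q = p ++ bl a e y` (`len_bl`, `over_bl`) for all `e < b` (`Wd.ext'`, `Wd.get_of_lt`). -/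
def G_PHS : Prop := ∀ (M : Type) [World M] (a b : M), a ≤ b →
  (∀ (f H : Wd M → M), IFn M f → (∃ l, ∀ z, f z < l) → PhiOK a b H fun p y => f (p ++ y.1)) ∧
  ∀ (H : Wd M → M), IFn M H → (∃ l, ∀ z, H z < l) →
    PhiOK a b H fun p y => Cod.cd (Wd.of b fun e => H (p ++ bl a e y))

/-- **SEQ** (lemmas on sequences of blocks).

PROOF. (1) `ind`: as in `Helper41.CS.Ord5` (theorem `step`, first part). (2) `wv a F (v ++ Wd.sg c) =
isub a (F v.len ++ S v.len ++ sub a (a + v.len) (U v.len)) (v ++ Wd.sg c)`: `isub_app`, `isub_left`,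
`isub_over`, `isub_var`. (3) entries: a letter `≥ a` of `F v.len` is `a + i` with `i < v.len` by (1).
(4) `len_isub`. (5) by `ind` on the length of `z`: `z = z₀ ++ Wd.sg c`, (2), `St.p2` for the block
number `(v ++ z₀).len` and (3), (4). -/
def G_SEQ : Prop := ∀ (M : Type) [World M] (a b : M) (H : Wd M → M)
  (G : M → Wd M × Wd M → Prop) (F S U : M → Wd M), a ≤ b → BSeq a G F S U →
  (∀ j, Over (a + j) (F j)) ∧
  (∀ v c, wv a F (v ++ Wd.sg c) = wv a F v ++ bl a c (S v.len, U v.len)) ∧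
  (∀ v, Over b v → Over b (wv a F v)) ∧
  (∀ v, (wv a F v).len = (F v.len).len) ∧
  (St a b H G → ∀ v z, Over b v → Over a z → H (wv a F (v ++ z)) = H (wv a F v))

/-- **DT0** (determination, base), from `G_SEQ`.

PROOF. `Pat a b 0 c c'`: both are over `a`. `f (wv a F (v ++ c) ++ S _) = g (wv a F (v ++ c))` by the
definition of `nG` (`Φ p y = g p` for the block number `(v ++ c).len`), and
`nH g H (wv a F (v ++ c)) = nH g H (wv a F v)` (`G_SEQ` (5)); so with `pr_inj`. -/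
def G_DT0 : Prop := G_SEQ → ∀ (M : Type) [World M] (a b : M) (f H g : Wd M → M)
  (G : M → Wd M × Wd M → Prop), a ≤ b → St a b (nH g H) (nG a b G (fun p y => f (p ++ y.1)) g) →
  Det a b f 0 (nH g H) (nG a b G (fun p y => f (p ++ y.1)) g)

/-- **DTS** (determination, step), from `G_SEQ`.

PROOF. Let `Φ p y = cd (Wd.of b fun e => H (p ++ bl a e y))`, `BSeq a (nG ..) F S U`; then also
`BSeq a G F S U`. Let `nH g H (wv v) = nH g H (wv v')`, so `H (wv v) = H (wv v')` (`pr_inj`). For `i ≤ k`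
apply the hypothesis. For `i = k + 1`: `c = z ++ Wd.sg e ++ c₁`, `c' = z' ++ Wd.sg e ++ c₁'`.
`g (wv (v ++ z)) = g (wv v) = g (wv v') = g (wv (v' ++ z'))` (`G_SEQ` (5), `pr_inj`), so with
`y, y'` the blocks number `(v ++ z).len`, `(v' ++ z').len`:
`cd (Wd.of b fun e => H (wv (v ++ z) ++ bl a e y)) = cd (Wd.of b fun e => H (wv (v' ++ z') ++ bl a e y'))`, hence
(`Cod.inj`, entry `e < b`, `G_SEQ` (2)) `H (wv (v ++ z ++ Wd.sg e)) = H (wv (v' ++ z' ++ Wd.sg e))`. Apply the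
hypothesis to `v ++ z ++ Wd.sg e`, `v' ++ z' ++ Wd.sg e` and `c₁, c₁'`; `app_assoc`. -/
def G_DTS : Prop := G_SEQ → ∀ (M : Type) [World M] (a b : M) (f H g : Wd M → M)
  (G : M → Wd M × Wd M → Prop), a ≤ b → IFn M H → IFn M g → ∀ k : ℕ, Det a b f k H G →
  St a b (nH g H) (nG a b G (fun p y => Cod.cd (Wd.of b fun e => H (p ++ bl a e y))) g) →
  Det a b f (k + 1) (nH g H)
    (nG a b G (fun p y => Cod.cd (Wd.of b fun e => H (p ++ bl a e y))) g)

/-- **FUS** (the word), from `G_REC`, `G_SEQ`.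

PROOF. Let `Q L y` := `Bk a y ∧ G L y`. For every `L` there is `y` with `Q L y`: `St.many` for `L` and `r = 1`
with `χ` the code of the zero function (`code_num`). `G_REC` with `x₀ = nil`, `st (n, w) =
w ++ (pick M (Q w.len)).1 ++ sub a (a + n) (pick M (Q w.len)).2`. `S j = (pick M (Q (F j).len)).1`, `U j` the
second component: `BSeq a G F S U`. `W = limW F`; `limW_oow`, `inst_limW`
(`Pool/Agent/Helper41/CS/Ord5.lean`): `inst a W v = wv a F v ++ S v.len`. Apply `Det` with `v = v' = nil`,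
`nil_app`. -/
def G_FUS : Prop := G_REC → ∀ (M : Type) [World M] (a b : M) (f H : Wd M → M)
  (G : M → Wd M × Wd M → Prop), St a b H G → ∀ k : ℕ, Det a b f k H G →
  ∃ W : M → M, IFn M W ∧ OOW a W ∧ ∀ i : ℕ, i ≤ k → ∀ c c' : Wd M, Pat a b i c c' →
    f (inst a W c) = f (inst a W c')

/-- The theorem in a world. -/
def OBW (M : Type) [World M] (k : ℕ) : Prop := ∀ (a b : M) (f : Wd M → M), a ≤ b → IFn M f →
  (∃ l, ∀ z, f z < l) → ∃ W : M → M, IFn M W ∧ OOW a W ∧ ∀ i : ℕ, i ≤ k → ∀ c c' : Wd M,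
    Pat a b i c c' → f (inst a W c) = f (inst a W c')

/-- **WOR** (assembly in a world), from `G_STP`, `G_BAS`, `G_PHS`, `G_DT0`, `G_DTS`, `G_FUS`.

PROOF. `a = 0`: `W p = p`; `Pat 0 b i c c'` implies `c = c'` (induction on `i`; words over `0` are empty).
`0 < a`: by induction on `k : ℕ` there are `H, G` with `St a b H G` and `Det a b f k H G`: `k = 0`:
`G_BAS`, `G_PHS` (1), `G_STP`, `G_DT0`. Step: `G_PHS` (2), `G_STP`, `G_DTS`. Then `G_FUS`. (State the
assumptions which `G_STP` needs as one hypothesis `hstp` of the form `∀ M a b H G Φ, ..`.) -/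
def G_WOR : Prop := G_REC → G_CS1 → G_SEQ →
  (∀ (M : Type) [World M] (a b : M) (H : Wd M → M) (G : M → Wd M × Wd M → Prop)
    (Φ : Wd M → Wd M × Wd M → M), 0 < a → a ≤ b → St a b H G → PhiOK a b H Φ →
    ∃ g : Wd M → M, IFn M g ∧ St a b (nH g H) (nG a b G Φ g)) →
  G_BAS → G_PHS → G_DT0 → G_DTS → G_FUS → ∀ (M : Type) [World M] (k : ℕ), OBW M k

end Pool.Agent.Helper6.OB
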