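import Pool.Agent.Helper41.CS.OStmt

/-!
# The statement: ordered omega-variable words and words with a bounded number of occurrences of
variables, in a structure for second order arithmetic
-/

namespace Pool.Agent.Helper6.CS

namespace L2Structure

variable (A : L2Structure)

/-- The sequence of the variables which occur in the finite word of length `k` with the letters
`g p` over the alphabet of the numbers less than `a` and the variables `x_i` (`x_i` is the number
`a + i`) is `x_(e 0), .., x_(e (m - 1))`: there are positions `s 0 < .. < s (m - 1) < k` such that the
letter at the position `s i` is `a + e i`, and all other letters are less than `a`. -/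
def HasVars (a k : A.M) (g : A.M → A.M) {m : ℕ} (e : Fin m → A.M) : Prop :=
  ∃ s : Fin m → A.M, (∀ i j, i < j → A.lt (s i) (s j)) ∧
    (∀ i, A.lt (s i) k ∧ g (s i) = A.add a (e i)) ∧
    ∀ p, A.lt p k → (∀ i, p ≠ s i) → A.lt (g p) a

/-- The ordered variable word theorem for words with at most `r` occurrences of variables, in the
structure: for all numbers of colours `l ≥ 1`, all alphabets (all sizes `a`), all numbers of variables
`n` and all colourings `f` of the finite words over the alphabet and the variables `x_0, .., x_(n-1)`
there is an ordered omega-variable word `W` such that for every sequence `x_(e 0), .., x_(e (m - 1))` of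
`m ≤ r` variables (each `e i < n`) there is a colour `c` such that `W[v]` has colour `c` for all words
`v` in which exactly this sequence of variables occurs. -/
def SatOrderedBounded (r : ℕ) : Prop :=
  ∀ l a n : A.M, A.lt A.zero l → ∀ f : A.M → A.M, A.IsWordColouring (A.add a n) l f →
    ∃ W : A.M → A.M, A.InS W ∧ A.IsOrderedOmegaWord a W ∧
      ∀ (m : ℕ) (e : Fin m → A.M), m ≤ r → (∀ i, A.lt (e i) n) → ∃ c, A.lt c l ∧
        ∀ v k g, A.Codes v k g → A.HasVars a k g e →
          ∃ d q h, A.IsSubst a W k g q h ∧ A.Codes d q h ∧ f d = c

end L2Structure

end Pool.Agent.Helper6.CS
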