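import Pool.Agent.Helper6.OB.Goals
import Pool.Agent.Helper6.OB.Stmt
import Pool.Agent.Helper41.CS.OFinal

/-!
# Project OB: goals, translation to structures
-/

set_option autoImplicit false

namespace Pool.Agent.Helper6.OB

open Pool.Agent.Helper6.CS
open Pool.Agent.Helper41.CS (Vx OOW limW Cds)

set_option synthInstance.maxSize 1000000000

/-- **PAT** (sequences of variables). `n + a` letters; the positions `s 0 < .. < s (m-1)` of the
variables.

PROOF. By induction on `m : ℕ`, for all `v, v'`. `m = 0`: all letters are `< a`. `m + 1`: let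
`s, s'` be the positions, `z = Wd.of (s 0) v.get`, `v = z ++ Wd.sg (a + e 0) ++ v₁` (cf. `Wd.exists_snoc`,
`Wd.exists_cons`; `v₁ = Wd.of (v.len - (s 0 + 1)) fun i => v.get (s 0 + 1 + i)`), `z` is over `a` since a
position `< s 0` is none of the `s i`; `v₁` has the positions `s (i + 1) - (s 0 + 1)`. The same for
`v'`. -/
def G_PAT : Prop := ∀ (M : Type) [World M] (a n : M) (m : ℕ) (e : Fin m → M),
  (∀ i, e i < n) → ∀ v v' : Wd M,
  (∃ s : Fin m → M, (∀ i j, i < j → s i < s j) ∧ (∀ i, s i < v.len ∧ v.get (s i) = a + e i) ∧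
    ∀ p, p < v.len → (∀ i, p ≠ s i) → v.get p < a) →
  (∃ s : Fin m → M, (∀ i j, i < j → s i < s j) ∧ (∀ i, s i < v'.len ∧ v'.get (s i) = a + e i) ∧
    ∀ p, p < v'.len → (∀ i, p ≠ s i) → v'.get p < a) →
  Pat a (a + n) m v v'

/-- **COR** (the core of the translation, with all variables in `M`), from `G_PAT`, `G_FA`.

PROOF. Copy `ordered_core` of `Pool/Agent/Helper41/CS/OFinal.lean` with small changes. `cc z` is the least
strict code of the word `z`. The colouring is
`f' z = if Over (a + n) z then f (cc z) else 0` (`< l`). `W` from `OBW M r` for `a`, `b = a + n`, `f'`. Let `m, e` be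
given. If there is no word `v` with these variables let `c = 0`. Otherwise let `v₀` be one (a word, by
`G_FA` (2)), `c = f' (inst a W v₀)`. Let `v, k, g` be given with `Codes v k g` and the positions `s`;
`v'` the word from `G_FA` (2); `Pat a (a + n) m v' v₀` by `G_PAT`, so `f' (inst a W v') = c`; `inst a W v'` is
over `a + n` (as `over_inst_ordered`, its letters are letters `< a` of `W` or letters of `v'`; prove this
variant). `IsSubst` as in `ordered_core`. -/
def G_COR : Prop := G_PAT → G_FA → ∀ (M : Type) (w : World M) (r : ℕ), @OBW M w r →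
  (L2of M w).SatOrderedBounded r

/-- **FIN** (assembly). PROOF. As `ordered_models` of `Pool/Agent/Helper41/CS/OFinal.lean`: a model of
ACA_0 is `L2of A.M w` for a world (`G_ALGC`), rewrite. -/
def G_FIN : Prop := G_ALGA → G_ALGB → G_ALGC →
  (∀ (M : Type) (w : World M) (r : ℕ), (L2of M w).SatOrderedBounded r) →
  ∀ (r : ℕ) (A : L2Structure), IsModelACA0 A → A.SatOrderedBounded r

end Pool.Agent.Helper6.OB
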