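import Pool.Agent.Helper6.OB.Goals

/-!
# Project OB: packet MNS
-/

set_option autoImplicit false

namespace Pool.Agent.Helper6.OB

open Pool.Agent.Helper6.CS
open Pool.Agent.Helper41.CS (Vx OOW limW len_app get_app_lt get_app_ge app_assoc len_nil nil_app
  app_nil len_sg get_sg over_nil over_app over_sg len_sub get_sub sub_app over_sub sub_eq_self
  sub_sg_self bdd_words code_fun len_isub get_isub isub_app isub_over isub_left isub_var)

set_option synthInstance.maxSize 1000000000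

theorem pr_lt_pr {M : Type} [World M] {x y x' y' : M} (h1 : x < x') (h2 : y < y') :
    pr x y < pr x' y' := pr_lt (add_lt_add h1 h2)

theorem t_MNS : G_MNS := by
  intro hMNX M _ a b ρ H G Φ g ha hab hst hΦ hgi hgρ hGn L r β m hRR l
  have hHi : IFn M H := hst.ifn
  obtain ⟨ρ₂, hρ₂⟩ := hst.bd
  have hρ' : ∀ p, nH g H p < pr ρ ρ₂ := fun p => pr_lt_pr (hgρ p) (hρ₂ p)
  have hρ0 : 0 < pr ρ ρ₂ := lt_of_le_of_lt (World.zero_le' _) (hρ' (Wd.nil M))
  obtain ⟨B₀, hB₀⟩ := hGn (L + β + l) (nb (pr (nb (pr ρ ρ₂) (nb b L)) r) (m + 1))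
  obtain ⟨B₁, hB₁⟩ := hRR (l + B₀)
  refine ⟨B₀ + B₁, fun χ hχ => ?_⟩
  have e1 : L + β + l + (B₀ + B₁) = L + β + (l + B₀) + B₁ := by ring
  have e2 : β + (l + B₀) + B₁ = β + l + (B₀ + B₁) := by ring
  have hχ' := hχ
  rw [e1] at hχ'
  rcases hB₁ χ hχ' with h1 | ⟨e, he1, he2⟩
  · left
    rwa [e2] at h1
  by_cases hS : Suc a b G Φ g L χ (β + l + (B₀ + B₁))
  · exact Or.inl hS
  right
  -- the product colouring
  let F : Wd M → M := fun q => Cod.cd (Wd.of (m + 1) fun i : M =>
    pr (Cod.cd (rst b L fun p : Wd M => nH g H (p ++ (q ++ dec (ev e i)))))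
      (apn χ (q ++ dec (ev e i))))
  have hF : IFn M F := by
    change IFn M fun q : Wd M => (Cod.cd (Wd.of (m + 1) fun i : M =>
      pr (Cod.cd (rst b L fun p : Wd M => nH g H (p ++ (q ++ dec (ev e i)))))
        (apn χ (q ++ dec (ev e i)))) : M)
    infer_instance
  obtain ⟨χ₀, hχ₀⟩ := code_num F a (L + β + l + B₀)
  have hcol : ColB a (L + β + l + B₀) (nb (pr (nb (pr ρ ρ₂) (nb b L)) r) (m + 1)) χ₀ := by
    intro z hz hzl
    rw [hχ₀ z hz hzl]
    refine nb_spec ?_ ?_
    · intro i hi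
      rw [Wd.len_of] at hi
      rw [Wd.get_of_lt _ _ hi]
      obtain ⟨h2, h3, -⟩ := he1 i ((World.lt_succ _ _).1 hi)
      refine pr_lt_pr (cd_rst_lt hρ0 fun p _ _ => hρ' _) ?_
      refine hχ _ (over_app hz h2) ?_
      rw [len_app]
      calc z.len + (dec (ev e i)).len ≤ (L + β + l + B₀) + B₁ := by gcongr
        _ = L + β + l + (B₀ + B₁) := by ring
    · rw [Wd.len_of]
  obtain ⟨y, hy, hyl, hDg, hG, hg⟩ := hB₀ χ₀ hcol
  have hkey : ∀ q, Over a q → q.len ≤ L + β + l → ∀ c d, c < a → d < a → ∀ i, i ≤ m →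
      (∀ p, Over b p → p.len ≤ L → nH g H (p ++ (q ++ bl a c y ++ dec (ev e i))) =
        nH g H (p ++ (q ++ bl a d y ++ dec (ev e i)))) ∧
      apn χ (q ++ bl a c y ++ dec (ev e i)) = apn χ (q ++ bl a d y ++ dec (ev e i)) := by
    intro q hq hql c d hc hd i hi
    have h2 := hDg q hq hql c d hc hd
    have hlen : ∀ c : M, (q ++ bl a c y).len ≤ L + β + l + B₀ := by
      intro c
      rw [len_app, len_bl]
      gcongr
    rw [hχ₀ _ (over_app hq (over_bl' hy hc)) (hlen c), hχ₀ _ (over_app hq (over_bl' hy hd))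
      (hlen d)] at h2
    have h3 := Cod.inj h2
    have h4 := congrArg (fun w : Wd M => w.get i) h3
    have hi' : i < m + 1 := (World.lt_succ _ _).2 hi
    rw [Wd.get_of_lt _ _ hi', Wd.get_of_lt _ _ hi'] at h4
    obtain ⟨h5, h6⟩ := pr_inj h4
    refine ⟨?_, h6⟩
    have h7 := Cod.inj h5
    exact rst_eq.1 h7
  -- the new sequence
  classical
  obtain ⟨e', he'⟩ := ev_exists (fun i : M => if i = 0 then (Cod.cd (Wd.nil M) : M) else
    Cod.cd (bl a 0 y ++ dec (ev e (i - 1)))) (m + 1 + 1)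
  have h00 : dec (ev e' 0) = Wd.nil M := by
    rw [he' 0 (lt_of_le_of_lt (World.zero_le' _) ((World.lt_succ _ _).2 le_rfl)), if_pos rfl,
      dec_cd]
  have h01 : ∀ i, i ≤ m → dec (ev e' (i + 1)) = bl a 0 y ++ dec (ev e i) := by
    intro i hi
    rw [he' (i + 1) ((World.lt_succ _ _).2 (by gcongr)), if_neg, add_tsub_cancel_right, dec_cd]
    exact (lt_of_le_of_lt (World.zero_le' _) ((World.lt_succ _ _).2 le_rfl)).ne'
  have hcase : ∀ i : M, i = 0 ∨ ∃ j, i = j + 1 := by
    intro i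
    by_cases h : i = 0
    · exact Or.inl h
    · exact Or.inr (Pool.Agent.Helper41.CS.exists_succ (World.one_le_of_pos (lt_of_le_of_ne (World.zero_le' _)
        (Ne.symm h))))
  refine ⟨e', ?_, ?_⟩
  · intro i hi
    rcases hcase i with rfl | ⟨i, rfl⟩
    · rw [h00]
      refine ⟨over_nil a, by rw [len_nil]; exact World.zero_le' _, fun q _ _ => by rw [app_nil]⟩
    · have hi' : i ≤ m := le_of_add_le_add_right hi
      obtain ⟨h2, h3, h4⟩ := he1 i hi'
      rw [h01 i hi']
      refine ⟨over_app (over_bl' hy ha) h2, ?_, fun q hq hql => ?_⟩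
      · rw [len_app, len_bl]
        gcongr
      · rw [← app_assoc, h4 (q ++ bl a 0 y) (over_app hq (over_bl hy hab
          (lt_of_lt_of_le ha hab))) ?_]
        · exact hst.p2 _ y hy hG q hq hql 0 ha
        · rw [len_app, len_bl]
          calc q.len + lb y ≤ (L + β + l) + B₀ := by gcongr
            _ = L + β + (l + B₀) := by ring
  · intro i j hij hjm x hx hxl t
    rcases hcase j with rfl | ⟨j, rfl⟩
    · exact absurd hij (not_lt.2 (World.zero_le' _))
    have hj' : j ≤ m := le_of_add_le_add_right hjm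
    rcases hcase i with rfl | ⟨i, rfl⟩
    · rw [h00, h01 j hj', app_nil]
      rintro ⟨hR0, hR1⟩
      refine hS (hMNX M a b H G Φ g ha hab hst hΦ hgi L β l B₀ B₁ χ y (dec (ev e j)) x t hy hyl
        (he1 j hj').1 (he1 j hj').2.1 hx hxl hG hg ?_ ?_ ?_ hR0 ?_)
      · intro q hq hql
        refine (he1 j hj').2.2 q hq ?_
        rwa [← add_assoc]
      · exact fun q hq hql c d hc hd => (hkey q hq hql c d hc hd j hj').2
      · exact fun q hq hql c d hc hd => (hkey q hq hql c d hc hd j hj').1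
      · rwa [app_assoc]
    · have hi' : i < j := lt_of_add_lt_add_right hij
      rw [h01 j hj', h01 i (hi'.le.trans hj'), ← app_assoc, ← app_assoc]
      refine he2 i j hi' hj' (x ++ bl a 0 y) (over_app hx (over_bl' hy ha)) ?_ t
      rw [len_app, len_bl]
      gcongr

end Pool.Agent.Helper6.OB
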