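import Pool.Agent.Helper6.OB.Goals

/-!
# Project OB: packet MNX
-/

set_option autoImplicit false

namespace Pool.Agent.Helper6.OB

open Pool.Agent.Helper6.CS
open Pool.Agent.Helper41.CS (Vx OOW limW len_app get_app_lt get_app_ge app_assoc len_nil nil_app
  app_nil len_sg get_sg over_nil over_app over_sg len_sub get_sub sub_app over_sub sub_eq_self
  sub_sg_self bdd_words code_fun len_isub get_isub isub_app isub_over isub_left isub_var)

set_option synthInstance.maxSize 1000000000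

theorem t_MNX : G_MNX := by
  intro M _ a b H G Φ g ha hab hst hΦ hgi L β l B₀ B₁ χ y h x t hy hyl hh hhl hx hxl hG hg hH hχ hd
    hR0 hR1
  obtain ⟨ht, htl, hR0⟩ := hR0
  obtain ⟨-, -, hR1⟩ := hR1
  have hw : Over a (t ++ x) := over_app ht hx
  have hwl : (t ++ x).len ≤ β + l := by rw [len_app]; gcongr
  have hy1 : Bk a ((t ++ x) ++ y.1, y.2) := bk_left hy hw
  have hy2 : Bk a ((t ++ x) ++ y.1, y.2 ++ h) :=
    bk_right (y := ((t ++ x) ++ y.1, y.2)) hy1 hh
  have ebl : ∀ c : M, bl a c ((t ++ x) ++ y.1, y.2 ++ h) = (t ++ x) ++ bl a c y ++ h := by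
    intro c
    rw [bl_right (y := ((t ++ x) ++ y.1, y.2)) hh, bl_left]
  have elb : lb ((t ++ x) ++ y.1, y.2) = (t ++ x).len + lb y := lb_left _ _
  have elb2 : lb ((t ++ x) ++ y.1, y.2 ++ h) = (t ++ x).len + lb y + h.len := by
    rw [lb_right (y := ((t ++ x) ++ y.1, y.2)), elb]
  have hle : L + (t ++ x).len ≤ L + β + l := by
    rw [add_assoc]
    gcongr
  have hnh : ∀ p, Over b p → p.len ≤ L → g (p ++ (t ++ x)) = g p ∧ H (p ++ (t ++ x)) = H p := by
    intro p hp hpl
    have h1 := hR0 p hp hpl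
    rw [app_assoc] at h1
    exact pr_inj h1
  have hG1 : G L ((t ++ x) ++ y.1, y.2) :=
    hst.p3 L y (t ++ x) hy hw (hst.mono _ _ _ hle hG) fun p hp hpl => (hnh p hp hpl).2
  have hlen : ∀ p q : M, p ≤ L → q ≤ p + lb ((t ++ x) ++ y.1, y.2) → q ≤ L + β + l + B₀ := by
    intro p q hp hq
    refine hq.trans ?_
    rw [elb]
    calc p + ((t ++ x).len + lb y) ≤ L + ((β + l) + B₀) := by gcongr
      _ = L + β + l + B₀ := by ring
  have hG2 : G L ((t ++ x) ++ y.1, y.2 ++ h) :=
    hst.p4 L ((t ++ x) ++ y.1, y.2) h hy1 hh hG1 fun q hq hql => hH q hq (hlen L _ le_rfl hql)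
  refine ⟨((t ++ x) ++ y.1, y.2 ++ h), hy2, ?_, ?_, hG2, ?_⟩
  · rw [elb2]
    calc (t ++ x).len + lb y + h.len ≤ (β + l) + B₀ + B₁ := by gcongr
      _ = β + l + (B₀ + B₁) := by ring
  · intro q hq hql c d hc hd'
    rw [ebl, ebl]
    have h1 := hχ (q ++ (t ++ x)) (over_app hq hw)
      (by rw [len_app]; exact le_trans (by gcongr) hle) c d hc hd'
    simpa only [app_assoc] using h1
  · intro p hp hpl
    have h1 : g (p ++ (t ++ x)) = g p := (hnh p hp hpl).1
    have hpw : Over b (p ++ (t ++ x)) := over_app hp (Over.mono hab hw)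
    refine ⟨?_, fun c hc => ?_⟩
    · rw [hΦ.f2 p ((t ++ x) ++ y.1, y.2) h hp hy1 hh
        fun q hq hql => hH q hq (hlen p.len _ hpl hql), hΦ.f1 p (t ++ x) y hp hy hw,
        hg _ hpw (by rw [len_app]; exact le_trans (by gcongr) hle), h1]
    · rw [ebl]
      have hq : (t ++ x).len ≤ L + β + l := (le_add_of_nonneg_left (World.zero_le' L)).trans hle
      have h2 := hd (t ++ x) hw hq c 0 hc ha p hp hpl
      have h3 := hR1 p hp hpl
      have h4 : p ++ (t ++ x ++ bl a 0 y ++ h) = p ++ t ++ (x ++ bl a 0 y ++ h) := by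
        simp only [app_assoc]
      rw [h4, h3] at h2
      exact (pr_inj h2).1

end Pool.Agent.Helper6.OB
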