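import Pool.Agent.Helper6.OB.Goals

/-!
# Project OB: packet URL
-/

set_option autoImplicit false

namespace Pool.Agent.Helper6.OB

open Pool.Agent.Helper6.CS
open Pool.Agent.Helper41.CS (Vx OOW limW len_app get_app_lt get_app_ge app_assoc len_nil nil_app
  app_nil len_sg get_sg over_nil over_app over_sg len_sub get_sub sub_app over_sub sub_eq_self
  sub_sg_self bdd_words code_fun len_isub get_isub isub_app isub_over isub_left isub_var)

set_option synthInstance.maxSize 1000000000

theorem t_URL : G_URL := by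
  intro M _ a b ρ H G Φ g₀ S hab hst hΦ hP L N w hw hH r
  have hig : IFn M g₀ := hP.ig
  obtain ⟨B, hB⟩ := hP.g1 (nb b (N + w.len)) (L + w.len) r
  refine ⟨w.len + B, fun χ hχ => ?_⟩
  rw [← add_assoc] at hχ
  obtain ⟨y, hy, hyl, hDg, hG, hg⟩ := hB χ hχ
  refine ⟨(w ++ y.1, y.2), bk_left hy hw, ?_, ?_, hst.p3 L y w hy hw hG hH, ?_⟩
  · rw [lb_left]
    gcongr
  · intro q hq hql c d hc hd
    rw [bl_left, bl_left, ← app_assoc, ← app_assoc]
    exact hDg (q ++ w) (over_app hq hw) (by rw [len_app]; gcongr) c d hc hd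
  · intro p hp hpl
    have hfi : IFn M fun i : M => g₀ (Cod.cd (dec i ++ w)) := by infer_instance
    rw [Wd.len_of] at hpl
    rw [hΦ.f1 p w y hp hy hw, Wd.get_of_lt _ _ hpl, dec_cd]
    have h1 : (Cod.cd (p ++ w) : M) < nb b (N + w.len) := by
      refine nb_spec (over_app hp (Over.mono hab hw)) ?_
      rw [len_app]
      have := (len_le_cd p).trans hpl.le
      gcongr
    rw [hg (p ++ w) (over_app hp (Over.mono hab hw)) (by rwa [Wd.len_of]), Wd.get_of_lt _ _ h1]

end Pool.Agent.Helper6.OB
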