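import Pool.Agent.Helper6.CS.Main
import Pool.Agent.Helper6.OB.Goals3
import Pool.Agent.Helper6.OB.MNX
import Pool.Agent.Helper6.OB.MNS
import Pool.Agent.Helper8.OB.PR
import Pool.Agent.Helper15.OB.URP
import Pool.Agent.Helper72.OB.PTH
import Pool.Agent.Helper91.OB.STP
import Pool.Agent.Helper35.OB.SEQ
import Pool.Agent.Helper6.OB.URL
import Pool.Agent.Helper66.OB.MNE
import Pool.Agent.Helper95.OB.DTS
import Pool.Agent.Helper85.OB.KON
import Pool.Agent.Helper14.OB.FUS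
import Pool.Agent.Helper23.OB.BAS
import Pool.Agent.Helper48.OB.WOR
import Pool.Agent.Helper96.OB.PHS
import Pool.Agent.Helper25.OB.GRE
import Pool.Agent.Helper45.OB.LMO
import Pool.Agent.Helper79.OB.DT0
import Pool.Agent.Helper86.OB.LST
import Pool.Agent.Helper92.OB.MN0
import Pool.Agent.Helper12.OB.PAT
import Pool.Agent.Helper83.OB.COR
import Pool.Agent.Helper51.OB.FIN

/-!
# Project OB (MP_81e84b_lc): assembly
-/

set_option autoImplicit false

namespace Pool.Agent.Helper6.OB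

open Pool.Agent.Helper6.CS

/-- For every standard `r`, every model of `ACA_0` satisfies the ordered theorem for words with at most
`r` occurrences of variables. -/
theorem main (r : ℕ) (A : L2Structure) (hA : IsModelACA0 A) : A.SatOrderedBounded r := by
  have hBND : G_BND := t_BND
  have hCDF : G_CDF := Pool.Agent.Helper90.CS.t_CDF hBND
  have hPH : G_PH := Pool.Agent.Helper36.CS.t_PH
  have hLH0 : G_LH0 := Pool.Agent.Helper85.CS.t_LH0 hCDF
  have hSHB : G_SHB := Pool.Agent.Helper66.CS.t_SHB hCDF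
  have hSH0 : G_SH0 := Pool.Agent.Helper79.CS.t_SH0
  have hSHS : G_SHS := Pool.Agent.Helper57.CS.t_SHS hSHB hBND hCDF hPH
  have hLHS : G_LHS := Pool.Agent.Helper53.CS.t_LHS hCDF
  have hLHA : G_LHA := Pool.Agent.Helper25.CS.t_LHA hLH0 hSH0 hSHS hLHS
  have hC1 : G_CS1 := Pool.Agent.Helper14.CS.t_CS1 hLHA hPH hCDF
  have hREC : G_REC := Pool.Agent.Helper86.CS.t_REC
  have hKON : G_KON := Pool.Agent.Helper85.OB.t_KON
  have hGRE : G_GRE := Pool.Agent.Helper25.OB.t_GRE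
  have hLMO : G_LMO := Pool.Agent.Helper45.OB.t_LMO
  have hLST : G_LST := Pool.Agent.Helper86.OB.t_LST
  have hPR : G_PR := Pool.Agent.Helper8.OB.t_PR
  have hPTH : G_PTH := Pool.Agent.Helper72.OB.t_PTH
  have hURL : G_URL := t_URL
  have hURP : G_URP := Pool.Agent.Helper15.OB.t_URP
  have hMN0 : G_MN0 := Pool.Agent.Helper92.OB.t_MN0
  have hMNE : G_MNE := Pool.Agent.Helper66.OB.t_MNE
  have hSTP : G_STP := Pool.Agent.Helper91.OB.t_STP
  have hSEQ : G_SEQ := Pool.Agent.Helper35.OB.t_SEQ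
  have hBAS : G_BAS := Pool.Agent.Helper23.OB.t_BAS
  have hPHS : G_PHS := Pool.Agent.Helper96.OB.t_PHS
  have hDT0 : G_DT0 := Pool.Agent.Helper79.OB.t_DT0
  have hDTS : G_DTS := Pool.Agent.Helper95.OB.t_DTS
  have hFUS : G_FUS := Pool.Agent.Helper14.OB.t_FUS
  have hstp := hSTP hREC hPH hKON hGRE hLMO hLST hPR hPTH hURL hURP hMN0 t_MNX t_MNS hMNE
  have hW : ∀ (M : Type) [World M] (k : ℕ), OBW M k :=
    Pool.Agent.Helper48.OB.t_WOR hREC hC1 hSEQ (fun M _ => hstp M) hBAS hPHS hDT0 hDTS hFUS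
  refine Pool.Agent.Helper51.OB.t_FIN Pool.Agent.Helper9.CS.t_ALGA Pool.Agent.Helper2.CS.t_ALGB
    Pool.Agent.Helper43.CS.t_ALGC (fun M w r => ?_) r A hA
  exact Pool.Agent.Helper83.OB.t_COR Pool.Agent.Helper12.OB.t_PAT Pool.Agent.Helper80.CS.t_FA M w r
    (@hW M w r)

end Pool.Agent.Helper6.OB
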