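import Mathlib

/-!
# Project OB (MP_81e84b_lc): ordered words, a bounded number of occurrences of variables

**Theorem.** Let `k` be standard. In every model of `ACA_0`, for all `l ≥ 1`, all finite alphabets `A`
(`a` letters), all `n` (nonstandard ones allowed) and every colouring `f` of the finite words over
`A ∪ {x_0, .., x_(n-1)}` with `l` colours there is an ORDERED omega-variable word `W` over `A` (all
occurrences of `x_i` precede all occurrences of `x_j` for `i < j`) such that for all words `v` with
at most `k` occurrences of variables the colour `f(W[v])` depends only on the sequence of the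
variables which occur in `v`.

`k = 0` is the ordered theorem `OVW^0`. For `k ≥ n` it contains: for every `n`, the words in which
every variable `x_i`, `i < n`, occurs exactly once, in this order, get one colour. For `A` with one
letter it is (equivalent to) Ramsey's theorem for exponent `k + 1`. If the colour were also
independent of the sequence this would be a form of Hindman's theorem.

Notation: `b = a + n`. Words over `b` are called prefixes, `p`. A block is `y = (s, u)`, `s` a word
over `a`, `u` a word over `a + 1` which starts with the letter `a` (the variable);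
`y(c) = s u(c)`, `|y| = |s| + |u|`. An ordered word is `W = s_0 u_0(x_0) s_1 u_1(x_1) ..`, with
`W[v] = w_v s_|v|`, `w_v = s_0 u_0(v_0) .. s_(m-1) u_(m-1)(v_(m-1))`, `m = |v|`.
A colouring `χ` of the words over `a` is `L`-diagonal on `y` if `χ(g y(c)) = χ(g y(d))` for all `g`
over `a`, `|g| ≤ L`, and all `c, d < a`. `a ≥ 1` from now on (for `a = 0` take `W = x_0 x_1 ..`).

## States

A state `(H, G)` consists of a bounded function `H` on words and a relation `G(L, y)` (`y` is `L`-good)
between numbers and blocks such that (all `p, q` over `b`, all `z, ζ, h, t, g` over `a`)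

(MON) `G(L', y)`, `L ≤ L'` imply `G(L, y)`;
(P2) `G(L, y)` implies `H(p y(c)) = H(p)` for `|p| ≤ L`, `c < a`;
(P3) `G(L + |z|, y)` and `H(p z) = H(p)` for `|p| ≤ L` imply `G(L, (z s, u))`;
(P4) `G(L, y)` and `H(q ζ) = H(q)` for `|q| ≤ L + |y|` imply `G(L, (s, u ζ))`;
(UR) for all `L` there is `β` such that for all `h` there is `t` with `|t| ≤ β` and
  `H(p t h) = H(p)` for `|p| ≤ L`;
(MANY) for all `L, r` there is `B` such that for every `r`-colouring `χ` of the words over `a` of
  length `≤ L + B` there is an `L`-good block `y` with `|y| ≤ B` on which `χ` is `L`-diagonal.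

**Base**: `H = 0`, all blocks are good. (MANY) is the finite theorem (`G_CS1` of project CS) for the
colouring `z ↦ (χ(g z))_(|g| ≤ L)`.

## The step

Let `(H, G)` be a state and `Φ(p, y) < ρ` a function with (Φ1) `Φ(p, (z s, u)) = Φ(p z, (s, u))`, (Φ2)
`Φ(p, (s, u ζ)) = Φ(p, (s, u))` if `H(q ζ) = H(q)` for all `|q| ≤ |p| + |y|`. **Claim**: there is
`g` such that `H' = (g, H)` and `G'(L, y)` = [`G(L, y)` and for all `|p| ≤ L`: `Φ(p, y) = g(p)` and
`g(p y(c)) = g(p)` for all `c < a`] is a state.

*Large functions.* Number the prefixes. For a finite sequence `D` of colours `< ρ` (a function on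
the prefixes with number `< |D|`) let `Λ_L(D)` say: for all `r` there is `B` such that for every
`r`-colouring `χ` of the words over `a` of length `≤ L + B` there is an `L`-good block `y`,
`|y| ≤ B`, on which `χ` is `L`-diagonal, with `Φ(p, y) = D(p)` for all `p` with number `< |D|`. `D` is
large if `Λ_L(D)` for all `L`. `Λ_L(D)` is decreasing in `L` and in `D`. (PR) For all `N` there is a
large `D` of length `N`: otherwise there are `L` and `r` with `¬ Λ_L(D)` witnessed by `r`, for all the
finitely many `D`. Take `B` from (MANY) of `(H, G)` for the number of colours of the product of all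
the bad colourings `χ_D` (for `B`), a block `y` for the product, `D(p) = Φ(p, y)`: contradiction.

*Minimal set of types.* For a word `q` over `a` and a level `ℓ` the type at `q` of a function `g` on
prefixes is `(g(p q), H(p q))_(|p| ≤ ℓ)`. Number all pairs (level, type) `i = 0, 1, ..`; the pair `i`
occurs in `D` if it is the type of `D` at some `q` such that all `p q`, `|p| ≤ ℓ`, have numbers
`< |D|`. Let `i ∈ S` if for every `N` there is a large `D` of length `N` in which `i` does not occur and no
`j ∈ S`, `j < i`, occurs (recursion on `i`; largeness is arithmetical, so `S` is too). By König's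
lemma there is `g` (on all prefixes) all of whose initial segments are large, in which no `i ∈ S`
occurs. If `j ∉ S` then there is `N` such that `j` occurs in every large `D` of length `N` in which no
`i ∈ S`, `i < j`, occurs.

*(UR) for `H' = (g, H)`.* Let `ℓ` be given and `j` the pair (`ℓ`, type of `g` at the empty word). It
occurs in `g`, so `j ∉ S`; take `N` for `j`. Let `L*` be such that `Λ_(L*)(D)` implies that `D` is large,
for all the finitely many `D` of length `N`. Let `β'` be from (UR) of `H` for `L₁ = max(L*, N)`, and let
`h` be given, `ζ` with `|ζ| ≤ β'`, `H(p ζ h) = H(p)` for `|p| ≤ L₁`. Let `D(p) = g(p ζ h)` for the `p`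
with number `< N` (their length is `< N`). `Λ_(L*)(D)`: take a block `y = (s, u)` for the initial
segments of `g` and `L* + |ζ h|`; then `(ζ h s, u)` is as required by (P3), (Φ1). So `D` is large. If
`i ∈ S` occurs in `D` at `q` then it occurs in `g` at `q ζ h`, since `H(p q) = H(p q ζ h)`; this is
impossible. So `j` occurs in `D` at some `q`: `H'(p q ζ h) = H'(p)` for `|p| ≤ ℓ`; `t = q ζ`,
`β = N + β'`.

*(MANY) for `G'`.* Let `L, r` be given, `β` from (UR) of `H'` for `L`. For `h` over `a` let `Ret(h)` be
the set of the `t`, `|t| ≤ β`, with `H'(p t h) = H'(p)` for `|p| ≤ L`; it is not empty. Claim `R(m)`: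
for all `λ` there is `B` such that for all `r`-colourings `χ` of the words over `a` of length
`≤ L + β + λ + B` there is an `L`-good (for `G'`) block `y` with `|y| ≤ β + λ + B` on which `χ` is
`L`-diagonal (success), or there are `h_0, .., h_m` with `|h_i| ≤ B`, `H(q h_i) = H(q)` for
`|q| ≤ L + β + λ`, and for all `|g| ≤ λ` the sets `Ret(g h_i)` are pairwise disjoint. `m = 0`: `h_0` is
empty. Step: `L₀ = L + β + λ`, `B₀` from largeness of a long initial segment of `g` for `L₀` and `r₀`,
`B₁` from `R(m)` for `λ + B₀`, `B = B₀ + B₁`. Given `χ` take `h_0, .., h_m` (or success), colour `q` by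
`(type of level L of q h_i, χ(q h_i))_(i ≤ m)` (`r₀` colours) and take an `L₀`-good (for `G`) block `y`,
`|y| ≤ B₀`, on which this colouring is `L₀`-diagonal, with `Φ(p, y) = g(p)` for `|p| ≤ L₀`. The new
words are the empty word and `y(0) h_i`. `H(q y(0) h_i) = H(q y(0)) = H(q)`. Suppose that
`t ∈ Ret(g) ∩ Ret(g y(0) h_j)`, `|g| ≤ λ`, `y = (s, u)`. Then the block `y' = (t g s, u h_j)` is a success:
`G(L, y')` by (P3) (`H(p t g) = H(p)`), (P4); `Φ(p, y') = Φ(p, (t g s, u)) = Φ(p t g, y) = g(p t g) = g(p)`;
`H'(p t g y(c) h_j) = H'(p t g y(0) h_j) = H'(p)`; `χ(x t g y(c) h_j)` does not depend on `c` for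
`|x| ≤ L`. End: `λ = 0`, `m` = the number of words of length `≤ β`: the pigeonhole principle.

*(MON), (P2), (P3), (P4) for `(H', G')`*: directly. (P3): `Φ(p, (z s, u)) = Φ(p z, y) = g(p z) = g(p)`,
`g(p z y(c)) = g(p z) = g(p)`. (P4): `Φ(p, (s, u ζ)) = Φ(p, y) = g(p)`, `g(p y(c) ζ) = g(p y(c)) = g(p)`.

## The theorem

`(H_0, G_0)` base, `Φ_0(p, (s, u)) = f(p s)`, `Φ_(i+1)(p, y) = (H_(i+1)(p y(e)))_(e < b)`, and
`(H_(i+1), G_(i+1))` from `(H_i, G_i)`, `Φ_i` by the step. Let `(H, G) = (H_(k+1), G_(k+1))` and choose
`W` block by block: `y_j` is `|w|`-good, where `w = s_0 u_0(x_0) .. u_(j-1)(x_(j-1))` (MANY). If `v` is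
over `b` then `H(w_(v c)) = H(w_v)` for `c < a` by (P2), `H_i(w_(v e))` is determined by `H_(i+1)(w_v)`
and `e`, and `f(W[v]) = Φ_0(w_v, y_|v|)` is determined by `H_1(w_v)`. By induction on the number
`m ≤ k` of occurrences of variables in `v`: `f(W[v])` depends only on their sequence. Everything is
arithmetical, for standard `k`.
-/
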